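import Mathlib
import Pool.Agent.N860.HL.Law

set_option autoImplicit false

/-!
# Conjecture F for `x² + x + A` in every sequential random model of the primes, uniformly in `A`

The integers are decided one after the other, no integer divisible by an element of a finite set `Q`
of primes is chosen, and the conditional probability of choosing `n + 1` (not divisible by an element
of `Q`) given the past is asymptotic to `∏_{p ∈ Q} (1 - 1/p)⁻¹ / log n`.  No independence and no rate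
is assumed.  Almost surely the number of the chosen values of `m² + m + A`, `0 ≤ m ≤ x`, is
asymptotic to `C_Q(Δ) L_A(x)`, uniformly for all odd `A` up to any fixed power of `x`.
-/

open MeasureTheory Filter
open scoped Topology

namespace Pool.Agent.Results.MP_8be758_nt.SievedModels

/-- `P_A(x)` for a set `S`: the number of the `m`, `0 ≤ m ≤ x`, for which `m² + m + A` is in `S` -/
noncomputable def P (S : Set ℕ) (A x : ℕ) : ℕ := {m : ℕ | m ≤ x ∧ m ^ 2 + m + A ∈ S}.ncard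

/-- `L_A(x)`, twice the integral of `1 / log (t² + t + A)` from `0` to `x` -/
noncomputable def L (A x : ℕ) : ℝ := 2 * ∫ t in (0:ℝ)..x, 1 / Real.log (t ^ 2 + t + A)

/-- the local factors of the primes in `Q`: the product of `1 - (Δ/p)/(p-1)` over the odd primes `p`
in `Q`, where `Δ = 1 - 4A`, times `1/2` if `2` is not in `Q` -/
noncomputable def CQ (Q : Finset ℕ) (A : ℕ) : ℝ :=
  (if 2 ∈ Q then 1 else 1 / 2) * ∏ p ∈ Q.erase 2, (1 - (jacobiSym (1 - 4 * (A : ℤ)) p : ℝ) / ((p : ℝ) - 1))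

open Pool.Agent.N860.HL

/-- Let `S n` be the event that `n` is chosen, adapted to a filtration `ℱ`, let `Q` be a finite set of
primes, let no integer divisible by an element of `Q` be chosen, and let the conditional probability
of `S (n + 1)` given `ℱ n`, times `log n`, tend to `∏_{p ∈ Q} (1 - 1/p)⁻¹` along the `n` for which no
element of `Q` divides `n + 1`, almost surely.  Let `P_A(x)` be the number of the `m`, `0 ≤ m ≤ x`,
for which `m² + m + A` is chosen.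
(1) Almost surely `P_A(x) / (C_Q(Δ) L_A(x)) → 1` for every odd `A ≥ 3`.
(2) Almost surely this holds uniformly: for all `C` and `ε > 0`, for all large `x` and all odd
`A ≥ 3` with `A ≤ x^C`.
(3) Almost surely, for every `C`, `P_A(x) ≥ ∏_{p ∈ Q, p ≥ 3} (1 - 1/(p-1)) x / (2 (C + 3) log x)` for
all large `x` and all odd `A ≥ 3` with `A ≤ x^C`.
(4) Almost surely, for every `δ > 0` and all large odd `A` there is `m ≤ A^δ` for which `m² + m + A`
is chosen. -/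
theorem result {Ω : Type} [mΩ : MeasurableSpace Ω] (μ : Measure Ω) [IsProbabilityMeasure μ]
    (ℱ : Filtration ℕ mΩ) (S : ℕ → Set Ω) (hS : ∀ n, MeasurableSet[ℱ n] (S n))
    (Q : Finset ℕ) (hQ : ∀ p ∈ Q, p.Prime) (hcop : ∀ n, (∃ p ∈ Q, p ∣ n) → S n = ∅)
    (hd : ∀ᵐ ω ∂μ, Tendsto (fun n : ℕ =>
      (μ[(S (n + 1)).indicator (fun _ => (1 : ℝ)) | ℱ n]) ω * Real.log n)
      (atTop ⊓ 𝓟 {n : ℕ | ∀ p ∈ Q, ¬ p ∣ n + 1}) (𝓝 (∏ p ∈ Q, (1 - 1 / (p : ℝ))⁻¹))) :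
    (∀ᵐ ω ∂μ, ∀ A : ℕ, Odd A → 3 ≤ A →
      Tendsto (fun x : ℕ => (P {n | ω ∈ S n} A x : ℝ) / (CQ Q A * L A x)) atTop (𝓝 1)) ∧
    (∀ᵐ ω ∂μ, ∀ C : ℕ, ∀ ε : ℝ, 0 < ε → ∃ x₀ : ℕ, ∀ x ≥ x₀, ∀ A : ℕ, Odd A → 3 ≤ A → A ≤ x ^ C →
      |(P {n | ω ∈ S n} A x : ℝ) - CQ Q A * L A x| ≤ ε * (CQ Q A * L A x)) ∧
    (∀ᵐ ω ∂μ, ∀ C : ℕ, ∃ x₀ : ℕ, ∀ x ≥ x₀, ∀ A : ℕ, Odd A → 3 ≤ A → A ≤ x ^ C →
      (∏ p ∈ Q.erase 2, (1 - 1 / ((p : ℝ) - 1))) * (x / (2 * (C + 3) * Real.log x)) ≤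
        P {n | ω ∈ S n} A x) ∧
    (∀ᵐ ω ∂μ, ∀ δ : ℝ, 0 < δ → ∃ A₀ : ℕ, ∀ A ≥ A₀, Odd A →
      ∃ m : ℕ, (m : ℝ) ≤ (A : ℝ) ^ δ ∧ ω ∈ S (m ^ 2 + m + A)) := by
  classical
  have h2 : ∀ᵐ ω ∂μ, ∀ C : ℕ, ∀ ε : ℝ, 0 < ε → ∃ x₀ : ℕ, ∀ x ≥ x₀, ∀ A : ℕ, Odd A → 3 ≤ A → A ≤ x ^ C →
      |(P {n | ω ∈ S n} A x : ℝ) - CQ Q A * L A x| ≤ ε * (CQ Q A * L A x) :=
    ae_all_iff.2 fun C => uniform_law (μ := μ) hS Q hQ hcop hd C
  have hπ := (coef_ge Q hQ 0).2
  have hM : ∀ C x A : ℕ, 3 ≤ x → 3 ≤ A → A ≤ x ^ C →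
      (∏ p ∈ Q.erase 2, (1 - 1 / ((p : ℝ) - 1))) * (x / ((C + 3) * Real.log x)) ≤ CQ Q A * L A x :=
    fun C x A hx hA hAx => main_ge Q hQ C x A hx hA hAx
  have h3 : ∀ᵐ ω ∂μ, ∀ C : ℕ, ∃ x₀ : ℕ, ∀ x ≥ x₀, ∀ A : ℕ, Odd A → 3 ≤ A → A ≤ x ^ C →
      (∏ p ∈ Q.erase 2, (1 - 1 / ((p : ℝ) - 1))) * (x / (2 * (C + 3) * Real.log x)) ≤
        P {n | ω ∈ S n} A x := by
    filter_upwards [h2] with ω hω C
    obtain ⟨x₀, hx₀⟩ := hω C (1 / 2) (by norm_num)
    refine ⟨max x₀ 3, fun x hx A hA hA3 hAx => ?_⟩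
    have g1 := (abs_le.1 (hx₀ x ((le_max_left _ _).trans hx) A hA hA3 hAx)).1
    have g2 := hM C x A ((le_max_right _ _).trans hx) hA3 hAx
    have g3 : (x : ℝ) / (2 * (C + 3) * Real.log x) = 1 / 2 * (x / ((C + 3) * Real.log x)) := by
      rw [mul_assoc 2, div_mul_div_comm, one_mul]
    rw [g3]
    linarith
  refine ⟨?_, h2, h3, ?_⟩
  · filter_upwards [h2] with ω hω A hA hA3
    rw [Metric.tendsto_atTop]
    intro ε hε
    obtain ⟨x₀, hx₀⟩ := hω 1 (ε / 2) (by positivity)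
    refine ⟨max (max x₀ A) 3, fun x hx => ?_⟩
    have k1 : x₀ ≤ x := (le_max_left _ _).trans ((le_max_left _ _).trans hx)
    have k2 : A ≤ x ^ 1 := by
      rw [pow_one]
      exact (le_max_right _ _).trans ((le_max_left _ _).trans hx)
    have k3 : 3 ≤ x := (le_max_right _ _).trans hx
    have g1 := hx₀ x k1 A hA hA3 k2
    have g2 := hM 1 x A k3 hA3 k2
    have hx' : (3 : ℝ) ≤ x := by exact_mod_cast k3
    have hL : 0 < Real.log x := Real.log_pos (by linarith)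
    have g3 : 0 < CQ Q A * L A x := lt_of_lt_of_le (by positivity) g2
    rw [Real.dist_eq, div_sub_one g3.ne', abs_div, abs_of_pos g3, div_lt_iff₀ g3]
    refine lt_of_le_of_lt g1 ?_
    exact mul_lt_mul_of_pos_right (by linarith) g3
  · filter_upwards [h3] with ω hω δ hδ
    obtain ⟨C, hC⟩ := exists_nat_ge (2 / δ)
    obtain ⟨x₀, hx₀⟩ := hω C
    have t1 : Tendsto (fun n : ℕ => (n : ℝ) ^ (δ / 2)) atTop atTop :=
      (tendsto_rpow_atTop (by positivity)).comp tendsto_natCast_atTop_atTop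
    obtain ⟨A₀, hA₀⟩ := eventually_atTop.1 ((t1.eventually_ge_atTop ((x₀ : ℝ) + 4)).and (eventually_ge_atTop 3))
    refine ⟨A₀, fun A hA hodd => ?_⟩
    obtain ⟨q1, q2⟩ := hA₀ A hA
    have hA1 : (1 : ℝ) ≤ A := by exact_mod_cast (show 1 ≤ A by omega)
    have hA0 : (0 : ℝ) < A := by linarith
    set y : ℝ := (A : ℝ) ^ (δ / 2) with hy
    have hy2 : (A : ℝ) ^ δ = y * y := by
      rw [hy, ← Real.rpow_add hA0]
      congr 1
      ring
    have hx00 : (0 : ℝ) ≤ x₀ := Nat.cast_nonneg _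
    set x : ℕ := ⌊(A : ℝ) ^ δ⌋₊ with hxdef
    have hx1 : (x : ℝ) ≤ (A : ℝ) ^ δ := Nat.floor_le (by positivity)
    have hx2 : (A : ℝ) ^ δ < x + 1 := Nat.lt_floor_add_one _
    have hx3 : y ≤ x := by
      rw [hy2] at hx2
      nlinarith
    have hx4 : x₀ ≤ x ∧ 4 ≤ x := by
      constructor
      · have : (x₀ : ℝ) ≤ x := by linarith
        exact_mod_cast this
      · have : ((4 : ℕ) : ℝ) ≤ x := by push_cast; linarith
        exact_mod_cast this
    have hAx : A ≤ x ^ C := by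
      have h5 : (A : ℝ) ≤ (x : ℝ) ^ C := by
        calc (A : ℝ) = (A : ℝ) ^ (1 : ℝ) := (Real.rpow_one _).symm
          _ ≤ (A : ℝ) ^ (δ / 2 * C) := by
              apply Real.rpow_le_rpow_of_exponent_le hA1
              rw [div_le_iff₀ hδ] at hC
              linarith
          _ = y ^ C := by rw [hy, Real.rpow_mul hA0.le, Real.rpow_natCast]
          _ ≤ (x : ℝ) ^ C := pow_le_pow_left₀ (by positivity) hx3 C
      exact_mod_cast h5
    have h6 := hx₀ x hx4.1 A hodd q2 hAx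
    have hx5 : (4 : ℝ) ≤ x := by exact_mod_cast hx4.2
    have hL : 0 < Real.log x := Real.log_pos (by linarith)
    have h7 : (0 : ℝ) < P {n | ω ∈ S n} A x := lt_of_lt_of_le (by positivity) h6
    have h8 : 0 < P {n | ω ∈ S n} A x := by exact_mod_cast h7
    obtain ⟨m, hm1, hm2⟩ := Set.nonempty_of_ncard_ne_zero h8.ne'
    exact ⟨m, le_trans (by exact_mod_cast hm1) hx1, hm2⟩

end Pool.Agent.Results.MP_8be758_nt.SievedModels
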